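import Pool.Agent.V11330.SpanLim

set_option autoImplicit false

open Set Filter Topology MeasureTheory ProbabilityTheory TopologicalSpace
open scoped NNReal ENNReal

namespace Pool.Agent.Results.MP_52e894_pr.SpanInvariance

/-- The span set on `[0,1]` of a path `f : [0,∞) → ℝ`: all lengths `t - s` of intervals
`[s,t] ⊆ [0,1]` with `f s = f t`, as a subset of the unit interval. -/
def spanSet (f : ℝ≥0 → ℝ) : Set unitInterval :=
  {u | ∃ s t : ℝ≥0, s ≤ t ∧ t ≤ 1 ∧ f s = f t ∧ (u : ℝ) = (t : ℝ) - s}

lemma spanSet_eq {f : ℝ≥0 → ℝ} (hf : Continuous f) :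
    spanSet f = (V11330.SpanLim.spK (V11330.Donsker.res f) : Set unitInterval) := by
  ext u
  rw [V11330.SpanLim.mem_spK]
  constructor
  · rintro ⟨s, t, h1, h2, h3, h4⟩
    have hs : (s : ℝ) ∈ Icc (0 : ℝ) 1 := ⟨s.2, by exact_mod_cast h1.trans h2⟩
    have ht : (t : ℝ) ∈ Icc (0 : ℝ) 1 := ⟨t.2, by exact_mod_cast h2⟩
    refine ⟨⟨s, hs⟩, ⟨t, ht⟩, h1, ?_, h4⟩
    rw [V11330.Donsker.res_apply hf, V11330.Donsker.res_apply hf]
    exact h3
  · rintro ⟨s, t, h1, h2, h3⟩
    rw [V11330.Donsker.res_apply hf, V11330.Donsker.res_apply hf] at h2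
    exact ⟨V11330.Donsker.nn s, V11330.Donsker.nn t, h1, t.2.2, h2, h3⟩

open Classical in
/-- The span set of a continuous path as a nonempty compact subset of the unit interval
(for discontinuous `f`, which has probability zero below, the value is `{0}`). -/
noncomputable def spanK (f : ℝ≥0 → ℝ) : NonemptyCompacts unitInterval :=
  if h : Continuous f then
    ⟨⟨spanSet f, by rw [spanSet_eq h]; exact (V11330.SpanLim.spK _).isCompact⟩,
      ⟨0, 0, 0, le_rfl, zero_le_one, rfl, by simp⟩⟩
  else {0}

/-- The normalised span set of a walk `z` in `N` steps: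
all `(k - l) / N` with `0 ≤ l ≤ k ≤ N` and `z k = z l`. -/
def walkSpanSet (N : ℕ) (z : ℕ → ℤ) : Set unitInterval :=
  {u | ∃ l k : ℕ, l ≤ k ∧ k ≤ N ∧ z k = z l ∧ (u : ℝ) = ((k : ℝ) - l) / N}

/-- The normalised span set of a walk in `N` steps as a nonempty compact set. -/
def walkSpanK (N : ℕ) (z : ℕ → ℤ) : NonemptyCompacts unitInterval :=
  ⟨⟨walkSpanSet N z, (V11330.SpanLim.finite_wspan N z).isCompact⟩,
    ⟨0, V11330.SpanLim.zero_mem_wspan N z⟩⟩

/-- the Borel sigma-algebra of the Hausdorff metric -/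
instance instMeasurableSpaceK : MeasurableSpace (NonemptyCompacts unitInterval) := borel _

instance instBorelSpaceK : BorelSpace (NonemptyCompacts unitInterval) := ⟨rfl⟩

/-- The normalised span sets of simple random walk converge in distribution, in the Hausdorff
metric, to the span set of Brownian motion. -/
theorem result {Ω : Type*} [MeasurableSpace Ω] {P : Measure Ω} [IsProbabilityMeasure P]
    {Ω' : Type*} [MeasurableSpace Ω'] {P' : Measure Ω'} [IsProbabilityMeasure P']
    {B : ℝ≥0 → Ω' → ℝ} (hB : IsBrownianReal B P')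
    {ξ : ℕ → Ω → ℤ} (hm : ∀ i, Measurable (ξ i)) (hi : iIndepFun ξ P)
    (hp : ∀ i, P {ω | ξ i ω = 1} = 1 / 2) (hn : ∀ i, P {ω | ξ i ω = -1} = 1 / 2) :
    TendstoInDistribution
      (fun (N : ℕ) ω => walkSpanK N (fun k => ∑ i ∈ Finset.range k, ξ i ω)) atTop
      (fun ω => spanK (fun t => B t ω)) (fun _ => P) P' := by
  have hpm := V11330.Donsker.pm_ae hm hp hn
  have h1 : TendstoInDistribution
      (fun (N : ℕ) ω => walkSpanK N (fun k => ∑ i ∈ Finset.range k, ξ i ω)) atTop
      (fun ω => V11330.SpanLim.spK (V11330.Donsker.res (fun t => B t ω))) (fun _ => P) P' := by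
    refine V11330.MapThm.tendstoInDistribution_map (V11330.Donsker.donsker hB hm hi hp hn)
      (V11330.SpanLim.ae_continuousAt hB) (fun N => ?_) (r := fun N => 2 / (N : ℝ)) ?_ ?_
    · have hms : Measurable (fun ω (i : Fin N) => ξ i ω) :=
        measurable_pi_lambda _ fun i => hm i
      set ex : (Fin N → ℤ) → ℕ → ℤ := fun x i => if h : i < N then x ⟨i, h⟩ else 0 with hex
      have h2 : (fun ω => walkSpanK N (fun k => ∑ i ∈ Finset.range k, ξ i ω)) =
          (fun x : Fin N → ℤ => walkSpanK N (fun k => ∑ i ∈ Finset.range k, ex x i)) ∘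
            (fun ω (i : Fin N) => ξ i ω) := by
        funext ω
        simp only [Function.comp_apply]
        apply SetLike.coe_injective
        show walkSpanSet N _ = walkSpanSet N _
        have h3 : ∀ k ≤ N, ∑ i ∈ Finset.range k, ξ i ω =
            ∑ i ∈ Finset.range k, ex (fun i => ξ i ω) i := by
          intro k hk
          refine Finset.sum_congr rfl fun i hi => ?_
          have : i < N := lt_of_lt_of_le (Finset.mem_range.1 hi) hk
          simp only [hex, this, dif_pos]
        ext u
        constructor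
        · rintro ⟨l, k, a, b, c, d⟩
          exact ⟨l, k, a, b, ((h3 k b).symm.trans c).trans (h3 l (a.trans b)), d⟩
        · rintro ⟨l, k, a, b, c, d⟩
          exact ⟨l, k, a, b, ((h3 k b).trans c).trans (h3 l (a.trans b)).symm, d⟩
      rw [h2]
      exact ((measurable_of_countable _).comp hms).aemeasurable
    · exact tendsto_const_div_atTop_nhds_zero_nat 2
    · filter_upwards [eventually_ge_atTop 1] with N hN
      filter_upwards [hpm] with ω hω
      refine V11330.SpanLim.dist_wspanK_le (z := fun k => ∑ i ∈ Finset.range k, ξ i ω) ?_ hN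
      intro k
      rw [Finset.sum_range_succ, add_sub_cancel_left]
      exact hω k
  refine TendstoInDistribution.congr (fun N => EventuallyEq.refl _ _) ?_ h1
  filter_upwards [hB.cont] with ω hω
  apply SetLike.coe_injective
  unfold spanK
  rw [dif_pos hω]
  exact (spanSet_eq hω).symm

end Pool.Agent.Results.MP_52e894_pr.SpanInvariance
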